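import Pool.Agent.helper96.SV.SpecA

/-! sva:DVV (MP_b5a345_ag) -/

set_option autoImplicit false

namespace Pool.Agent.SVA

open Polynomial Module

theorem DVV_one {K : Type} [DecidableEq K] (m : K → ℕ) (s : Finset K) :
    1 + ∑ i ∈ s, m i ≤ ∏ i ∈ s, (m i + 1) := by
  induction s using Finset.induction_on with
  | empty => simp
  | insert a s ha ih =>
    rw [Finset.sum_insert ha, Finset.prod_insert ha]
    nlinarith [Nat.zero_le (m a * ∑ i ∈ s, m i), Nat.mul_le_mul_left (m a + 1) ih]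

theorem DVV : DVV_stmt := by
  intro K _ _ m hK hm
  have hne : Nontrivial K := Fintype.one_lt_card_iff_nontrivial.1 (by omega)
  obtain ⟨a, b, hab⟩ := exists_pair_ne K
  unfold DD vv
  have h1 : ∑ i, m i = m a + ∑ i ∈ Finset.univ.erase a, m i :=
    (Finset.add_sum_erase _ m (Finset.mem_univ a)).symm
  have h2 : ∏ i, (m i + 1) = (m a + 1) * ∏ i ∈ Finset.univ.erase a, (m i + 1) :=
    (Finset.mul_prod_erase _ (fun i => m i + 1) (Finset.mem_univ a)).symm
  have h3 := DVV_one m (Finset.univ.erase a)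
  have h4 : 1 ≤ ∑ i ∈ Finset.univ.erase a, m i := by
    refine (hm b).trans (Finset.single_le_sum (f := m) (fun _ _ => Nat.zero_le _) ?_)
    rw [Finset.mem_erase]
    exact ⟨hab.symm, Finset.mem_univ _⟩
  have h5 := hm a
  rw [h1, h2]
  set S := ∑ i ∈ Finset.univ.erase a, m i
  set P := ∏ i ∈ Finset.univ.erase a, (m i + 1)
  have h6 : (m a + 1) * (1 + S) ≤ (m a + 1) * P := Nat.mul_le_mul_left _ h3
  have h7 : 1 ≤ m a * S := Nat.mul_pos h5 h4
  nlinarith

end Pool.Agent.SVA
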